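import Mathlib

set_option autoImplicit false

open Set FirstOrder FirstOrder.Language Cardinal

namespace Pool.Agent.Results.MP_972fd8_lc.Negative

/-!
# A good pseudotype that is not topologically stable, in a theory with countably many countable
models

The theory `T`.  There are three disjoint sorts `P`, `Q`, `C` (unary predicates for `P` and `Q`, and
`C` is the rest), constants `c 0, c 1, ...` naming distinct elements of `C`, and the graph `R` of a
generic function `r : P × Q → C`: for distinct `b 1, ..., b k` in `P` and any `e 1, ..., e k` in `C`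
there is `x` in `Q` with `r (b i, x) = e i` for all `i`, and the same with `P` and `Q` exchanged.

A countable model is determined up to isomorphism by the number of elements of `C` that are not
named by constants, so that `T` has countably many countable models.  By a back-and-forth argument
every permutation of `Q` is elementary.  Let `M` be a model in which infinitely many elements of `C`
are unnamed, let `b` be in `P` and `p = tp(b / Q)`.  For a finite `a ⊆ Q` every type in the orbit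
`O` of `p` under the permutations of `Q` that fix `a` is in one of the sets `F x`, `x` in `Q`, where
`F x` is the set of types `q(v)` in `cl(O)` that contain no formula `R(v, x, c n)` and no formula
`∃ z, R(v, x, z) ∧ R(v, y, z)` with `y` in `a`.  The sets `F x` are closed, and nowhere dense in
`cl(O)`: a formula contained in a member of `O` mentions finitely many of the constants `c n`, and
the unnamed element `r(b, x)` can be exchanged with a constant that the formula does not mention.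
So `O` is meager in `cl(O)`, and it is not comeager by the Baire category theorem.
-/

/-! ## Definitions, as in the problem file -/

section defs

variable (L : FirstOrder.Language.{0, 0})

/-- The set `Φ(N)` of solutions in `N` of the countable disjunction `Φ 0 ∨ Φ 1 ∨ ⋯` of partial
types over `∅` in one variable. -/
def sol (Φ : ℕ → Set (L.Formula (Fin 1))) (N : Type) [L.Structure N] : Set N :=
  {m | ∃ i, ∀ φ ∈ Φ i, φ.Realize (fun _ => m)}

variable {L} in
/-- Isomorphism of countable models of `T`. -/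
def isoSetoid (T : L.Theory) : Setoid {K : Theory.ModelType.{0, 0, 0} T // Countable K} where
  r K K' := Nonempty (K.1 ≃[L] K'.1)
  iseqv :=
    { refl := fun K => ⟨FirstOrder.Language.Equiv.refl L K.1⟩
      symm := fun ⟨e⟩ => ⟨e.symm⟩
      trans := fun ⟨e⟩ ⟨e'⟩ => ⟨e'.comp e⟩ }

variable {L} in
/-- `I(T, ℵ₀)`: the number of countable models of `T` up to isomorphism. -/
noncomputable def numCountableModels (T : L.Theory) : Cardinal.{1} := #(Quotient (isoSetoid T))

variable (M : Type) [L.Structure M] [Nonempty M] (Q : Set M)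

/-- The space `S_n(Q)` of complete `n`-types over `Q` (for the theory of `M` with constants for
the elements of `Q`), with the usual Stone topology, which is the one of Mathlib. -/
abbrev TypesOver (n : ℕ) : Type := (L[[Q]].completeTheory M).CompleteType (Fin n)

variable {M Q}

/-- `f` is an elementary permutation of `Q`: a sentence `φ(c)` with constants `c` from `Q` holds in
`M` if and only if `φ(f(c))` does.  These are exactly the restrictions to `Q` of the automorphisms
of a monster model that map `Q` onto `Q`. -/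
def IsElementaryPerm (f : Q ≃ Q) : Prop :=
  ∀ φ : L[[Q]].Sentence, M ⊨ (L.lhomWithConstantsMap f).onSentence φ ↔ M ⊨ φ

/-- `q = f(p)`: the formula `φ(x, f(c))` is in `q` if and only if `φ(x, c)` is in `p`. -/
def IsImage {n : ℕ} (f : Q ≃ Q) (p q : TypesOver L M Q n) : Prop :=
  ∀ φ : L[[Q]][[Fin n]].Sentence,
    ((L.lhomWithConstantsMap f).addConstants (Fin n)).onSentence φ ∈ q ↔ φ ∈ p

/-- The class `p / ∼_a`: the types `f(p)` with `f` elementary and fixing `a` pointwise. -/
def cls {n : ℕ} (a : Finset Q) (p : TypesOver L M Q n) : Set (TypesOver L M Q n) :=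
  {q | ∃ f : Q ≃ Q, IsElementaryPerm L f ∧ (∀ x ∈ a, f x = x) ∧ IsImage L f p q}

/-- `p` is `τ`-stable: for some finite `a ⊆ Q` the class `p / ∼_a` is comeager in the subspace
`cl(p / ∼_a)` of the space of types. -/
def TauStable {n : ℕ} (p : TypesOver L M Q n) : Prop :=
  ∃ a : Finset Q, {q : closure (cls L a p) | q.1 ∈ cls L a p} ∈ residual (closure (cls L a p))

/-- `p` is good (for `Q = Φ(M)`): it is realized in a countable model `N` of the theory of `M` with
constants for the elements of `Q` (interpreted by `j`) such that `Φ(N)` is the copy of `Q`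
in `N`. -/
def IsGood (Φ : ℕ → Set (L.Formula (Fin 1))) {n : ℕ} (p : TypesOver L M Q n) : Prop :=
  ∃ (N : Type) (_ : L.Structure N) (_ : Nonempty N) (_ : Countable N) (j : Q → N),
    letI : (constantsOn Q).Structure N := constantsOn.structure j
    ∃ _ : N ⊨ L[[Q]].completeTheory M,
      sol L Φ N = Set.range j ∧ p ∈ (L[[Q]].completeTheory M).realizedTypes N (Fin n)

end defs

/-! ## The back-and-forth construction -/

namespace BF

/-- A generic function `r : P × Q → C`. -/
structure IsGeneric {P Q C : Type} (r : P → Q → C) : Prop where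
  ext1 : ∀ (s : Finset P) (e : P → C), ∃ x, ∀ b ∈ s, r b x = e b
  ext2 : ∀ (s : Finset Q) (e : Q → C), ∃ b, ∀ x ∈ s, r b x = e x

lemma IsGeneric.swap {P Q C : Type} {r : P → Q → C} (h : IsGeneric r) :
    IsGeneric (fun x b => r b x) := ⟨h.ext2, h.ext1⟩

lemma IsGeneric.infinite_left {P Q C : Type} [Infinite C] {r : P → Q → C} (h : IsGeneric r) :
    Infinite P := by
  classical
  obtain ⟨c⟩ : Nonempty C := inferInstance
  obtain ⟨x, _⟩ := h.ext1 ∅ (fun _ => c)
  have hs : Function.Surjective (fun b => r b x) := by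
    intro c
    obtain ⟨b, hb⟩ := h.ext2 {x} (fun _ => c)
    exact ⟨b, hb x (Finset.mem_singleton_self x)⟩
  exact Infinite.of_surjective _ hs

/-- The extension property with infinitely many solutions. -/
lemma IsGeneric.ext1' {P Q C : Type} [Infinite C] {r : P → Q → C} (h : IsGeneric r)
    (s : Finset P) (e : P → C) (t : Finset Q) : ∃ x, x ∉ t ∧ ∀ b ∈ s, r b x = e b := by
  classical
  have := h.infinite_left
  obtain ⟨b0, hb0⟩ := Infinite.exists_notMem_finset s
  obtain ⟨c, hc⟩ := Infinite.exists_notMem_finset (t.image (fun x => r b0 x))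
  obtain ⟨x, hx⟩ := h.ext1 (insert b0 s) (fun b => if b = b0 then c else e b)
  refine ⟨x, ?_, ?_⟩
  · intro hxt
    apply hc
    rw [Finset.mem_image]
    refine ⟨x, hxt, ?_⟩
    have := hx b0 (Finset.mem_insert_self _ _)
    simpa using this
  · intro b hb
    have h1 := hx b (Finset.mem_insert_of_mem hb)
    have h2 : b ≠ b0 := fun h => hb0 (h ▸ hb)
    rwa [if_neg h2] at h1

section bf

variable {P Q C P' Q' C' : Type} (r : P → Q → C) (r' : P' → Q' → C') (φ : C → C')

/-- A finite relation that is the graph of a bijection between finite sets. -/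
def Inj {A B : Type} (f : Finset (A × B)) : Prop :=
  ∀ p ∈ f, ∀ q ∈ f, p.1 = q.1 ↔ p.2 = q.2

/-- Compatible pairs of finite partial bijections. -/
structure PI where
  f : Finset (P × P')
  g : Finset (Q × Q')
  hf : Inj f
  hg : Inj g
  comp : ∀ p ∈ f, ∀ q ∈ g, r' p.2 q.2 = φ (r p.1 q.1)

variable {r r' φ}

instance : Preorder (PI r r' φ) where
  le a b := a.f ⊆ b.f ∧ a.g ⊆ b.g
  le_refl a := ⟨subset_rfl, subset_rfl⟩
  le_trans a b c h1 h2 := ⟨h1.1.trans h2.1, h1.2.trans h2.2⟩

lemma Inj.insert {A B : Type} [DecidableEq A] [DecidableEq B] {f : Finset (A × B)} (hf : Inj f)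
    {a : A} {b : B} (ha : ∀ p ∈ f, p.1 ≠ a) (hb : ∀ p ∈ f, p.2 ≠ b) :
    Inj (insert (a, b) f) := by
  intro p hp q hq
  rw [Finset.mem_insert] at hp hq
  rcases hp with rfl | hp <;> rcases hq with rfl | hq
  · simp
  · constructor
    · intro h; exact absurd h.symm (ha q hq)
    · intro h; exact absurd h.symm (hb q hq)
  · constructor
    · intro h; exact absurd h (ha p hp)
    · intro h; exact absurd h (hb p hp)
  · exact hf p hp q hq

/-- swapping the two sorts -/
def PI.swap (p : PI r r' φ) : PI (fun x b => r b x) (fun x b => r' b x) φ where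
  f := p.g
  g := p.f
  hf := p.hg
  hg := p.hf
  comp := fun q hq p' hp' => p.comp p' hp' q hq

lemma Inj.comm {A B : Type} [DecidableEq A] [DecidableEq B] {f : Finset (A × B)} (hf : Inj f) :
    Inj (f.image Prod.swap) := by
  intro p hp q hq
  rw [Finset.mem_image] at hp hq
  obtain ⟨p, hp, rfl⟩ := hp
  obtain ⟨q, hq, rfl⟩ := hq
  exact (hf p hp q hq).symm

/-- forth, on the first sort -/
lemma forth (h' : IsGeneric r') [Infinite C'] (p : PI r r' φ) (b : P) :
    ∃ q : PI r r' φ, (∃ b', (b, b') ∈ q.f) ∧ p ≤ q := by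
  classical
  by_cases hb : ∃ b', (b, b') ∈ p.f
  · exact ⟨p, hb, le_rfl⟩
  · push Not at hb
    let e : Q' → C' := fun x' =>
      if h : ∃ x, (x, x') ∈ p.g then φ (r b h.choose) else (Classical.arbitrary C')
    obtain ⟨b', hb', he⟩ := h'.swap.ext1' (p.g.image Prod.snd) e (p.f.image Prod.snd)
    refine ⟨⟨insert (b, b') p.f, p.g, ?_, p.hg, ?_⟩, ⟨b', Finset.mem_insert_self _ _⟩,
      ⟨Finset.subset_insert _ _, subset_rfl⟩⟩
    · apply p.hf.insert
      · intro q hq h
        apply hb q.2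
        rw [← h]; exact hq
      · intro q hq h
        apply hb'
        rw [Finset.mem_image]
        exact ⟨q, hq, h⟩
    · intro p1 hp1 q hq
      rw [Finset.mem_insert] at hp1
      rcases hp1 with rfl | hp1
      · have h1 := he q.2 (Finset.mem_image_of_mem _ hq)
        simp only
        rw [h1]
        have hex : ∃ x, (x, q.2) ∈ p.g := ⟨q.1, hq⟩
        have h2 : e q.2 = φ (r b hex.choose) := dif_pos hex
        rw [h2]
        have h3 := (p.hg (hex.choose, q.2) hex.choose_spec q hq).2 rfl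
        simp only at h3
        rw [h3]
      · exact p.comp p1 hp1 q hq

/-- back, on the first sort -/
lemma back (h : IsGeneric r) [Infinite C] {ψ : C' → C} (hφψ : ∀ c, φ (ψ c) = c)
    (p : PI r r' φ) (b' : P') :
    ∃ q : PI r r' φ, (∃ b, (b, b') ∈ q.f) ∧ p ≤ q := by
  classical
  by_cases hb : ∃ b, (b, b') ∈ p.f
  · exact ⟨p, hb, le_rfl⟩
  · push Not at hb
    let e : Q → C := fun x =>
      if h : ∃ x', (x, x') ∈ p.g then ψ (r' b' h.choose) else (Classical.arbitrary C)
    obtain ⟨b, hb', he⟩ := h.swap.ext1' (p.g.image Prod.fst) e (p.f.image Prod.fst)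
    refine ⟨⟨insert (b, b') p.f, p.g, ?_, p.hg, ?_⟩, ⟨b, Finset.mem_insert_self _ _⟩,
      ⟨Finset.subset_insert _ _, subset_rfl⟩⟩
    · apply p.hf.insert
      · intro q hq h
        apply hb'
        rw [Finset.mem_image]
        exact ⟨q, hq, h⟩
      · intro q hq h
        apply hb q.1
        rw [← h]; exact hq
    · intro p1 hp1 q hq
      rw [Finset.mem_insert] at hp1
      rcases hp1 with rfl | hp1
      · have h1 := he q.1 (Finset.mem_image_of_mem _ hq)
        simp only
        rw [h1]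
        have hex : ∃ x', (q.1, x') ∈ p.g := ⟨q.2, hq⟩
        have h2 : e q.1 = ψ (r' b' hex.choose) := dif_pos hex
        rw [h2, hφψ]
        have h3 := (p.hg (q.1, hex.choose) hex.choose_spec q hq).1 rfl
        simp only at h3
        rw [h3]
      · exact p.comp p1 hp1 q hq

/-- The main back-and-forth lemma. -/
theorem exists_equiv [Countable P] [Countable Q] [Countable P'] [Countable Q'] [Infinite C]
    [Infinite C'] (h : IsGeneric r) (h' : IsGeneric r') (φ : C ≃ C') (p : PI r r' φ) :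
    ∃ (π : P ≃ P') (κ : Q ≃ Q'), (∀ q ∈ p.f, π q.1 = q.2) ∧ (∀ q ∈ p.g, κ q.1 = q.2) ∧
      ∀ b x, r' (π b) (κ x) = φ (r b x) := by
  classical
  let ι := (P ⊕ P') ⊕ (Q ⊕ Q')
  have : Encodable ι := Encodable.ofCountable ι
  let 𝒟 : ι → Order.Cofinal (PI r r' φ) := fun i => match i with
    | Sum.inl (Sum.inl b) => ⟨{q | ∃ b', (b, b') ∈ q.f}, fun p => by
        obtain ⟨q, h1, h2⟩ := forth h' p b; exact ⟨q, h1, h2⟩⟩
    | Sum.inl (Sum.inr b') => ⟨{q | ∃ b, (b, b') ∈ q.f}, fun p => by
        obtain ⟨q, h1, h2⟩ := back h (ψ := φ.symm) (by simp) p b'; exact ⟨q, h1, h2⟩⟩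
    | Sum.inr (Sum.inl x) => ⟨{q | ∃ x', (x, x') ∈ q.g}, fun p => by
        obtain ⟨q, h1, h2⟩ := forth h'.swap p.swap x
        exact ⟨q.swap, h1, h2.2, h2.1⟩⟩
    | Sum.inr (Sum.inr x') => ⟨{q | ∃ x, (x, x') ∈ q.g}, fun p => by
        obtain ⟨q, h1, h2⟩ := back h.swap (ψ := φ.symm) (by simp) p.swap x'
        exact ⟨q.swap, h1, h2.2, h2.1⟩⟩
  let I := Order.idealOfCofinals p 𝒟
  have hI : ∀ i, ∃ q, q ∈ 𝒟 i ∧ q ∈ I := Order.cofinal_meets_idealOfCofinals p 𝒟
  have hpI : p ∈ I := Order.mem_idealOfCofinals p 𝒟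
  have hdir : ∀ q1 ∈ I, ∀ q2 ∈ I, ∃ q3 ∈ I, q1 ≤ q3 ∧ q2 ≤ q3 := I.directed
  have hF : ∀ b, ∃ b', ∃ q ∈ I, (b, b') ∈ q.f := fun b => by
    obtain ⟨q, ⟨b', hb'⟩, hq⟩ := hI (Sum.inl (Sum.inl b))
    exact ⟨b', q, hq, hb'⟩
  have hF' : ∀ b', ∃ b, ∃ q ∈ I, (b, b') ∈ q.f := fun b' => by
    obtain ⟨q, ⟨b, hb⟩, hq⟩ := hI (Sum.inl (Sum.inr b'))
    exact ⟨b, q, hq, hb⟩
  have hG : ∀ x, ∃ x', ∃ q ∈ I, (x, x') ∈ q.g := fun x => by
    obtain ⟨q, ⟨x', hx'⟩, hq⟩ := hI (Sum.inr (Sum.inl x))
    exact ⟨x', q, hq, hx'⟩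
  have hG' : ∀ x', ∃ x, ∃ q ∈ I, (x, x') ∈ q.g := fun x' => by
    obtain ⟨q, ⟨x, hx⟩, hq⟩ := hI (Sum.inr (Sum.inr x'))
    exact ⟨x, q, hq, hx⟩
  have hFinj : ∀ b1 b1' b2 b2', (∃ q ∈ I, (b1, b1') ∈ q.f) → (∃ q ∈ I, (b2, b2') ∈ q.f) →
      (b1 = b2 ↔ b1' = b2') := by
    rintro b1 b1' b2 b2' ⟨q1, hq1, h1⟩ ⟨q2, hq2, h2⟩
    obtain ⟨q3, _, h13, h23⟩ := hdir q1 hq1 q2 hq2
    exact q3.hf (b1, b1') (h13.1 h1) (b2, b2') (h23.1 h2)
  have hGinj : ∀ b1 b1' b2 b2', (∃ q ∈ I, (b1, b1') ∈ q.g) → (∃ q ∈ I, (b2, b2') ∈ q.g) →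
      (b1 = b2 ↔ b1' = b2') := by
    rintro b1 b1' b2 b2' ⟨q1, hq1, h1⟩ ⟨q2, hq2, h2⟩
    obtain ⟨q3, _, h13, h23⟩ := hdir q1 hq1 q2 hq2
    exact q3.hg (b1, b1') (h13.2 h1) (b2, b2') (h23.2 h2)
  choose F hFs using hF
  choose F' hFs' using hF'
  choose G hGs using hG
  choose G' hGs' using hG'
  refine ⟨⟨F, F', fun b => ?_, fun b' => ?_⟩, ⟨G, G', fun x => ?_, fun x' => ?_⟩, ?_, ?_, ?_⟩
  · exact (hFinj _ _ _ _ (hFs' (F b)) (hFs b)).2 rfl
  · exact (hFinj _ _ _ _ (hFs (F' b')) (hFs' b')).1 rfl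
  · exact (hGinj _ _ _ _ (hGs' (G x)) (hGs x)).2 rfl
  · exact (hGinj _ _ _ _ (hGs (G' x')) (hGs' x')).1 rfl
  · intro q hq
    exact (hFinj _ _ _ _ (hFs q.1) ⟨p, hpI, hq⟩).1 rfl
  · intro q hq
    exact (hGinj _ _ _ _ (hGs q.1) ⟨p, hpI, hq⟩).1 rfl
  · intro b x
    obtain ⟨q1, hq1, h1⟩ := hFs b
    obtain ⟨q2, hq2, h2⟩ := hGs x
    obtain ⟨q3, _, h13, h23⟩ := hdir q1 hq1 q2 hq2
    exact q3.comp (b, F b) (h13.1 h1) (x, G x) (h23.2 h2)

end bf

end BF

/-! ## Finite support of formulas -/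

section support

universe u v w

variable {L : FirstOrder.Language.{u, v}}

/-- A bijection between two structures preserves the function symbol `f`. -/
def PresFun {M N : Type w} [L.Structure M] [L.Structure N] (g : M → N) (f : Σ n, L.Functions n) :
    Prop :=
  ∀ x : Fin f.1 → M, g (Structure.funMap f.2 x) = Structure.funMap f.2 (g ∘ x)

/-- A bijection between two structures preserves all relation symbols. -/
def PresRel {M N : Type w} [L.Structure M] [L.Structure N] (g : M → N) : Prop :=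
  ∀ (n : ℕ) (R : L.Relations n) (x : Fin n → M),
    Structure.RelMap R x ↔ Structure.RelMap R (g ∘ x)

lemma term_support {α : Type} (t : L.Term α) : ∃ F : Set (Σ n, L.Functions n), F.Finite ∧
    ∀ (M N : Type w) [L.Structure M] [L.Structure N] (g : M → N),
      (∀ f ∈ F, PresFun g f) → ∀ v : α → M, g (t.realize v) = t.realize (g ∘ v) := by
  induction t with
  | var a => exact ⟨∅, Set.finite_empty, fun M N _ _ g _ v => rfl⟩
  | func f ts ih =>
    choose F hF hF' using ih
    refine ⟨{⟨_, f⟩} ∪ ⋃ i, F i, (Set.finite_singleton _).union (Set.finite_iUnion hF), ?_⟩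
    intro M N _ _ g hg v
    have h1 := hg ⟨_, f⟩ (Or.inl rfl)
    simp only [Term.realize]
    rw [h1]
    congr 1
    funext i
    exact hF' i M N g (fun f' hf' => hg f' (Or.inr (Set.mem_iUnion.2 ⟨i, hf'⟩))) v

lemma formula_support {α : Type} {n : ℕ} (φ : L.BoundedFormula α n) :
    ∃ F : Set (Σ n, L.Functions n), F.Finite ∧
    ∀ (M N : Type w) [L.Structure M] [L.Structure N] (g : M ≃ N),
      (∀ f ∈ F, PresFun g f) → PresRel (L := L) g → ∀ (v : α → M) (xs : Fin n → M),
      φ.Realize v xs ↔ φ.Realize (g ∘ v) (g ∘ xs) := by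
  induction φ with
  | falsum => exact ⟨∅, Set.finite_empty, fun M N _ _ g _ _ v xs => Iff.rfl⟩
  | equal t1 t2 =>
    obtain ⟨F1, h1, h1'⟩ := term_support.{u, v, w} t1
    obtain ⟨F2, h2, h2'⟩ := term_support.{u, v, w} t2
    refine ⟨F1 ∪ F2, h1.union h2, ?_⟩
    intro M N _ _ g hg _ v xs
    have e1 := h1' M N g (fun f hf => hg f (Or.inl hf)) (Sum.elim v xs)
    have e2 := h2' M N g (fun f hf => hg f (Or.inr hf)) (Sum.elim v xs)
    simp only [BoundedFormula.Realize]
    rw [← Sum.comp_elim, ← e1, ← e2, g.injective.eq_iff]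
  | rel R ts =>
    choose F hF hF' using fun i => term_support.{u, v, w} (ts i)
    refine ⟨⋃ i, F i, Set.finite_iUnion hF, ?_⟩
    intro M N _ _ g hg hR v xs
    simp only [BoundedFormula.Realize]
    rw [hR _ R]
    have : (g ∘ fun i => (ts i).realize (Sum.elim v xs)) =
        fun i => (ts i).realize (Sum.elim (g ∘ v) (g ∘ xs)) := by
      funext i
      have := hF' i M N g (fun f hf => hg f (Set.mem_iUnion.2 ⟨i, hf⟩)) (Sum.elim v xs)
      rw [← Sum.comp_elim]
      exact this
    rw [this]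
  | imp φ ψ ih1 ih2 =>
    obtain ⟨F1, h1, h1'⟩ := ih1
    obtain ⟨F2, h2, h2'⟩ := ih2
    refine ⟨F1 ∪ F2, h1.union h2, ?_⟩
    intro M N _ _ g hg hR v xs
    simp only [BoundedFormula.Realize]
    rw [h1' M N g (fun f hf => hg f (Or.inl hf)) hR, h2' M N g (fun f hf => hg f (Or.inr hf)) hR]
  | all φ ih =>
    obtain ⟨F, h, h'⟩ := ih
    refine ⟨F, h, ?_⟩
    intro M N _ _ g hg hR v xs
    simp only [BoundedFormula.Realize]
    constructor
    · intro H y
      have := (h' M N g hg hR v (Fin.snoc xs (g.symm y))).1 (H _)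
      rwa [Fin.comp_snoc, Equiv.apply_symm_apply] at this
    · intro H x
      rw [h' M N g hg hR v, Fin.comp_snoc]
      exact H _

end support

/-! ## The language and the axioms -/

/-- Function symbols: constants `c n`. -/
inductive Fn : ℕ → Type
  | c (n : ℕ) : Fn 0

/-- Relation symbols: two unary ones and a ternary one. -/
inductive Rl : ℕ → Type
  | P : Rl 1
  | Q : Rl 1
  | R : Rl 3

/-- The language. -/
def L0 : FirstOrder.Language.{0, 0} := ⟨Fn, Rl⟩

/-- The structure on `P ⊕ Q ⊕ C` given by a function `r : P × Q → C` and constants. -/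
@[reducible] def genStr {P Q C : Type} (r : P → Q → C) (c : ℕ → C) : L0.Structure (P ⊕ Q ⊕ C) where
  funMap := fun {_} f _ => match f with
    | Fn.c n => Sum.inr (Sum.inr (c n))
  RelMap := fun {_} R x => match R, x with
    | Rl.P, x => ∃ b, x 0 = Sum.inl b
    | Rl.Q, x => ∃ y, x 0 = Sum.inr (Sum.inl y)
    | Rl.R, x => ∃ b y, x 0 = Sum.inl b ∧ x 1 = Sum.inr (Sum.inl y) ∧ x 2 = Sum.inr (Sum.inr (r b y))

section sem

variable (N : Type) [L0.Structure N]

def NP (x : N) : Prop := Structure.RelMap (L := L0) (M := N) Rl.P ![x]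
def NQ (x : N) : Prop := Structure.RelMap (L := L0) (M := N) Rl.Q ![x]
def NR (x y z : N) : Prop := Structure.RelMap (L := L0) (M := N) Rl.R ![x, y, z]
def Nc (n : ℕ) : N := Structure.funMap (L := L0) (M := N) (Fn.c n) ![]
def NC (x : N) : Prop := ¬ NP N x ∧ ¬ NQ N x

/-- The semantic form of the axioms. -/
structure IsGen : Prop where
  disj : ∀ x, ¬ (NP N x ∧ NQ N x)
  c_mem : ∀ n, NC N (Nc N n)
  c_ne : ∀ n m, n ≠ m → Nc N n ≠ Nc N m
  R_mem : ∀ x y z, NR N x y z → NP N x ∧ NQ N y ∧ NC N z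
  R_ex : ∀ x y, NP N x → NQ N y → ∃ z, NR N x y z
  R_un : ∀ x y z z', NR N x y z → NR N x y z' → z = z'
  ext1 : ∀ (k : ℕ) (b e : Fin k → N), (∀ i, NP N (b i)) → (∀ i, NC N (e i)) →
    (∀ i j, i ≠ j → b i ≠ b j) → ∃ x, NQ N x ∧ ∀ i, NR N (b i) x (e i)
  ext2 : ∀ (k : ℕ) (x e : Fin k → N), (∀ i, NQ N (x i)) → (∀ i, NC N (e i)) →
    (∀ i j, i ≠ j → x i ≠ x j) → ∃ b, NP N b ∧ ∀ i, NR N b (x i) (e i)

end sem

section syn

variable {α : Type}

def fP (t : L0.Term α) : L0.Formula α := Relations.formula (L := L0) Rl.P ![t]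
def fQ (t : L0.Term α) : L0.Formula α := Relations.formula (L := L0) Rl.Q ![t]
def fR (t s u : L0.Term α) : L0.Formula α := Relations.formula (L := L0) Rl.R ![t, s, u]
def tc (n : ℕ) : L0.Term α := Term.func (L := L0) (Fn.c n) ![]
def fC (t : L0.Term α) : L0.Formula α := (fP t).not ⊓ (fQ t).not

variable {N : Type} [L0.Structure N] (v : α → N)

lemma realize_fP (t : L0.Term α) : (fP t).Realize v ↔ NP N (t.realize v) := by
  simp only [fP, NP, Formula.realize_rel]
  apply iff_of_eq
  congr 1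
  funext i
  fin_cases i
  rfl

lemma realize_fQ (t : L0.Term α) : (fQ t).Realize v ↔ NQ N (t.realize v) := by
  simp only [fQ, NQ, Formula.realize_rel]
  apply iff_of_eq
  congr 1
  funext i
  fin_cases i
  rfl

lemma realize_fR (t s u : L0.Term α) :
    (fR t s u).Realize v ↔ NR N (t.realize v) (s.realize v) (u.realize v) := by
  simp only [fR, NR, Formula.realize_rel]
  apply iff_of_eq
  congr 1
  funext i
  fin_cases i <;> rfl

lemma realize_fC (t : L0.Term α) : (fC t).Realize v ↔ NC N (t.realize v) := by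
  simp only [fC, NC, Formula.realize_inf, Formula.realize_not, realize_fP, realize_fQ]

lemma realize_tc (n : ℕ) : (tc n : L0.Term α).realize v = Nc N n := by
  simp only [tc, Nc, Term.realize]
  congr 1
  funext i
  exact i.elim0

end syn

/-! sentences -/

noncomputable def sDisj : L0.Sentence :=
  Formula.iAlls (α := Empty) (Fin 1) ((fP (Term.var (Sum.inr 0)) ⊓ fQ (Term.var (Sum.inr 0))).not)

noncomputable def sRmem : L0.Sentence :=
  Formula.iAlls (α := Empty) (Fin 3)
    ((fR (Term.var (Sum.inr 0)) (Term.var (Sum.inr 1)) (Term.var (Sum.inr 2))).imp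
      (fP (Term.var (Sum.inr 0)) ⊓ (fQ (Term.var (Sum.inr 1)) ⊓ fC (Term.var (Sum.inr 2)))))

noncomputable def sRex : L0.Sentence :=
  Formula.iAlls (α := Empty) (Fin 2)
    ((fP (Term.var (Sum.inr 0)) ⊓ fQ (Term.var (Sum.inr 1))).imp
      (Formula.iExs (Fin 1) (fR (Term.var (Sum.inl (Sum.inr 0))) (Term.var (Sum.inl (Sum.inr 1)))
        (Term.var (Sum.inr 0)))))

noncomputable def sRun : L0.Sentence :=
  Formula.iAlls (α := Empty) (Fin 4)
    ((fR (Term.var (Sum.inr 0)) (Term.var (Sum.inr 1)) (Term.var (Sum.inr 2)) ⊓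
      fR (Term.var (Sum.inr 0)) (Term.var (Sum.inr 1)) (Term.var (Sum.inr 3))).imp
      (Term.equal (Term.var (Sum.inr 2)) (Term.var (Sum.inr 3))))

noncomputable def sExt1 (k : ℕ) : L0.Sentence :=
  Formula.iAlls (α := Empty) (Fin k ⊕ Fin k)
    ((Formula.iInf (fun i : Fin k => fP (Term.var (Sum.inr (Sum.inl i))) ⊓
        fC (Term.var (Sum.inr (Sum.inr i)))) ⊓
      Formula.iInf (fun ij : {ij : Fin k × Fin k // ij.1 ≠ ij.2} =>
        (Term.equal (Term.var (Sum.inr (Sum.inl ij.1.1))) (Term.var (Sum.inr (Sum.inl ij.1.2)))).not)).imp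
      (Formula.iExs (Fin 1) (fQ (Term.var (Sum.inr 0)) ⊓
        Formula.iInf (fun i : Fin k => fR (Term.var (Sum.inl (Sum.inr (Sum.inl i))))
          (Term.var (Sum.inr 0)) (Term.var (Sum.inl (Sum.inr (Sum.inr i))))))))

noncomputable def sExt2 (k : ℕ) : L0.Sentence :=
  Formula.iAlls (α := Empty) (Fin k ⊕ Fin k)
    ((Formula.iInf (fun i : Fin k => fQ (Term.var (Sum.inr (Sum.inl i))) ⊓
        fC (Term.var (Sum.inr (Sum.inr i)))) ⊓
      Formula.iInf (fun ij : {ij : Fin k × Fin k // ij.1 ≠ ij.2} =>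
        (Term.equal (Term.var (Sum.inr (Sum.inl ij.1.1))) (Term.var (Sum.inr (Sum.inl ij.1.2)))).not)).imp
      (Formula.iExs (Fin 1) (fP (Term.var (Sum.inr 0)) ⊓
        Formula.iInf (fun i : Fin k => fR (Term.var (Sum.inr 0))
          (Term.var (Sum.inl (Sum.inr (Sum.inl i)))) (Term.var (Sum.inl (Sum.inr (Sum.inr i))))))))

section real

variable {N : Type} [L0.Structure N]

lemma realize_sDisj : N ⊨ sDisj ↔ ∀ x, ¬ (NP N x ∧ NQ N x) := by
  simp only [sDisj, Sentence.Realize, Formula.realize_iAlls, Formula.realize_not,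
    Formula.realize_inf, realize_fP, realize_fQ, Term.realize_var, Sum.elim_inr]
  constructor
  · intro h x; exact h (fun _ => x)
  · intro h i; exact h (i 0)

lemma realize_sRmem : N ⊨ sRmem ↔ ∀ x y z, NR N x y z → NP N x ∧ NQ N y ∧ NC N z := by
  simp only [sRmem, Sentence.Realize, Formula.realize_iAlls, Formula.realize_imp,
    Formula.realize_inf, realize_fP, realize_fQ, realize_fC, realize_fR, Term.realize_var,
    Sum.elim_inr]
  constructor
  · intro h x y z; exact h ![x, y, z]
  · intro h i; exact h (i 0) (i 1) (i 2)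

lemma realize_sRex : N ⊨ sRex ↔ ∀ x y, NP N x → NQ N y → ∃ z, NR N x y z := by
  simp only [sRex, Sentence.Realize, Formula.realize_iAlls, Formula.realize_imp,
    Formula.realize_inf, realize_fP, realize_fQ, realize_fR, Term.realize_var,
    Sum.elim_inr, Sum.elim_inl, Formula.realize_iExs]
  constructor
  · intro h x y hx hy
    obtain ⟨z, hz⟩ := h ![x, y] ⟨hx, hy⟩
    exact ⟨z 0, hz⟩
  · intro h i hi
    obtain ⟨z, hz⟩ := h (i 0) (i 1) hi.1 hi.2
    exact ⟨fun _ => z, hz⟩

lemma realize_sRun : N ⊨ sRun ↔ ∀ x y z z', NR N x y z → NR N x y z' → z = z' := by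
  simp only [sRun, Sentence.Realize, Formula.realize_iAlls, Formula.realize_imp,
    Formula.realize_inf, realize_fR, Term.realize_var, Formula.realize_equal,
    Sum.elim_inr, Sum.elim_inl]
  constructor
  · intro h x y z z' h1 h2
    exact h ![x, y, z, z'] ⟨h1, h2⟩
  · intro h i hi
    exact h _ _ _ _ hi.1 hi.2

lemma realize_sExt1 (k : ℕ) : N ⊨ sExt1 k ↔
    ∀ (b e : Fin k → N), (∀ i, NP N (b i)) → (∀ i, NC N (e i)) →
    (∀ i j, i ≠ j → b i ≠ b j) → ∃ x, NQ N x ∧ ∀ i, NR N (b i) x (e i) := by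
  simp only [sExt1, Sentence.Realize, Formula.realize_iAlls, Formula.realize_imp,
    Formula.realize_inf, realize_fR, realize_fP, realize_fQ, realize_fC, Term.realize_var,
    Formula.realize_equal, Formula.realize_iInf, Formula.realize_iExs, Formula.realize_not,
    Sum.elim_inr, Sum.elim_inl]
  constructor
  · intro h b e hb he hne
    obtain ⟨x, hx1, hx2⟩ := h (Sum.elim b e) ⟨fun i => ⟨hb i, he i⟩, fun ij => hne _ _ ij.2⟩
    exact ⟨x 0, hx1, hx2⟩
  · intro h i hi
    obtain ⟨x, hx1, hx2⟩ := h (fun j => i (Sum.inl j)) (fun j => i (Sum.inr j))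
      (fun j => (hi.1 j).1) (fun j => (hi.1 j).2) (fun j l hjl => hi.2 ⟨(j, l), hjl⟩)
    exact ⟨fun _ => x, hx1, hx2⟩

lemma realize_sExt2 (k : ℕ) : N ⊨ sExt2 k ↔
    ∀ (x e : Fin k → N), (∀ i, NQ N (x i)) → (∀ i, NC N (e i)) →
    (∀ i j, i ≠ j → x i ≠ x j) → ∃ b, NP N b ∧ ∀ i, NR N b (x i) (e i) := by
  simp only [sExt2, Sentence.Realize, Formula.realize_iAlls, Formula.realize_imp,
    Formula.realize_inf, realize_fR, realize_fP, realize_fQ, realize_fC, Term.realize_var,
    Formula.realize_equal, Formula.realize_iInf, Formula.realize_iExs, Formula.realize_not,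
    Sum.elim_inr, Sum.elim_inl]
  constructor
  · intro h b e hb he hne
    obtain ⟨x, hx1, hx2⟩ := h (Sum.elim b e) ⟨fun i => ⟨hb i, he i⟩, fun ij => hne _ _ ij.2⟩
    exact ⟨x 0, hx1, hx2⟩
  · intro h i hi
    obtain ⟨x, hx1, hx2⟩ := h (fun j => i (Sum.inl j)) (fun j => i (Sum.inr j))
      (fun j => (hi.1 j).1) (fun j => (hi.1 j).2) (fun j l hjl => hi.2 ⟨(j, l), hjl⟩)
    exact ⟨fun _ => x, hx1, hx2⟩

lemma realize_sC (n : ℕ) : N ⊨ (fC (tc n) : L0.Sentence) ↔ NC N (Nc N n) := by
  simp only [Sentence.Realize, realize_fC, realize_tc]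

lemma realize_sNe (n m : ℕ) :
    N ⊨ ((Term.equal (tc n) (tc m)).not : L0.Sentence) ↔ Nc N n ≠ Nc N m := by
  simp only [Sentence.Realize, Formula.realize_not, Formula.realize_equal, realize_tc, ne_eq]

end real

lemma isGen_iff_of_equiv {M N : Type} [L0.Structure M] [L0.Structure N]
    (h : ∀ φ : L0.Sentence, M ⊨ φ ↔ N ⊨ φ) (hM : IsGen M) : IsGen N where
  disj := realize_sDisj.1 ((h _).1 (realize_sDisj.2 hM.disj))
  c_mem n := (realize_sC n).1 ((h _).1 ((realize_sC n).2 (hM.c_mem n)))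
  c_ne n m hnm := (realize_sNe n m).1 ((h _).1 ((realize_sNe n m).2 (hM.c_ne n m hnm)))
  R_mem := realize_sRmem.1 ((h _).1 (realize_sRmem.2 hM.R_mem))
  R_ex := realize_sRex.1 ((h _).1 (realize_sRex.2 hM.R_ex))
  R_un := realize_sRun.1 ((h _).1 (realize_sRun.2 hM.R_un))
  ext1 k := (realize_sExt1 k).1 ((h _).1 ((realize_sExt1 k).2 (hM.ext1 k)))
  ext2 k := (realize_sExt2 k).1 ((h _).1 ((realize_sExt2 k).2 (hM.ext2 k)))

/-! ## Extension of finite maps to isomorphisms -/

section extract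

variable {N : Type} [L0.Structure N] (hN : IsGen N)

/-- The function whose graph is `R`. -/
noncomputable def rN (b : {x // NP N x}) (y : {x // NQ N x}) : {x // NC N x} :=
  ⟨(hN.R_ex b y b.2 y.2).choose, (hN.R_mem _ _ _ (hN.R_ex b y b.2 y.2).choose_spec).2.2⟩

lemma rN_spec (b : {x // NP N x}) (y : {x // NQ N x}) (z : N) :
    NR N b y z ↔ z = rN hN b y := by
  have h := (hN.R_ex b y b.2 y.2).choose_spec
  constructor
  · intro h'
    exact hN.R_un _ _ _ _ h' h
  · rintro rfl
    exact h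

lemma rN_generic : BF.IsGeneric (rN hN) where
  ext1 := by
    intro s e
    obtain ⟨x, hx, hx'⟩ := hN.ext1 s.card (fun i => (s.equivFin.symm i).1.1)
      (fun i => (e (s.equivFin.symm i).1).1) (fun i => (s.equivFin.symm i).1.2)
      (fun i => (e (s.equivFin.symm i).1).2) (by
        intro i j hij h
        apply hij
        apply s.equivFin.symm.injective
        exact Subtype.ext (Subtype.ext h))
    refine ⟨⟨x, hx⟩, ?_⟩
    intro b hb
    have h1 := hx' (s.equivFin ⟨b, hb⟩)
    rw [Equiv.symm_apply_apply] at h1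
    have h2 := (rN_spec hN b ⟨x, hx⟩ _).1 h1
    exact Subtype.ext h2.symm
  ext2 := by
    intro s e
    obtain ⟨x, hx, hx'⟩ := hN.ext2 s.card (fun i => (s.equivFin.symm i).1.1)
      (fun i => (e (s.equivFin.symm i).1).1) (fun i => (s.equivFin.symm i).1.2)
      (fun i => (e (s.equivFin.symm i).1).2) (by
        intro i j hij h
        apply hij
        apply s.equivFin.symm.injective
        exact Subtype.ext (Subtype.ext h))
    refine ⟨⟨x, hx⟩, ?_⟩
    intro b hb
    have h1 := hx' (s.equivFin ⟨b, hb⟩)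
    rw [Equiv.symm_apply_apply] at h1
    have h2 := (rN_spec hN ⟨x, hx⟩ b _).1 h1
    exact Subtype.ext h2.symm

open Classical in
/-- Decomposition into the three sorts. -/
noncomputable def dec : N ≃ {x // NP N x} ⊕ {x // NQ N x} ⊕ {x // NC N x} where
  toFun x := if h : NP N x then Sum.inl ⟨x, h⟩ else
    if h' : NQ N x then Sum.inr (Sum.inl ⟨x, h'⟩) else Sum.inr (Sum.inr ⟨x, h, h'⟩)
  invFun := Sum.elim Subtype.val (Sum.elim Subtype.val Subtype.val)
  left_inv x := by
    dsimp only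
    split_ifs <;> rfl
  right_inv x := by
    rcases x with ⟨x, hx⟩ | ⟨x, hx⟩ | ⟨x, hx⟩
    · simp only [Sum.elim_inl]
      rw [dif_pos hx]
    · have : ¬ NP N x := fun h => hN.disj x ⟨h, hx⟩
      simp only [Sum.elim_inl, Sum.elim_inr]
      rw [dif_neg this, dif_pos hx]
    · simp only [Sum.elim_inr]
      rw [dif_neg hx.1, dif_neg hx.2]

lemma dec_P (x : N) (h : NP N x) : dec hN x = Sum.inl ⟨x, h⟩ := by
  rw [← Equiv.eq_symm_apply]; rfl

lemma dec_Q (x : N) (h : NQ N x) : dec hN x = Sum.inr (Sum.inl ⟨x, h⟩) := by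
  rw [← Equiv.eq_symm_apply]; rfl

lemma dec_C (x : N) (h : NC N x) : dec hN x = Sum.inr (Sum.inr ⟨x, h⟩) := by
  rw [← Equiv.eq_symm_apply]; rfl

include hN in
lemma infinite_C : Infinite {x // NC N x} :=
  Infinite.of_injective (fun n => ⟨Nc N n, hN.c_mem n⟩) (by
    intro n m h
    by_contra hne
    exact hN.c_ne n m hne (Subtype.ext_iff.1 h))

end extract

section key

variable {N N' : Type} [L0.Structure N] [L0.Structure N'] [Countable N] [Countable N']

lemma fin1_eta {A : Type} (x : Fin 1 → A) : x = ![x 0] := by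
  funext i; fin_cases i; rfl

lemma fin3_eta {A : Type} (x : Fin 3 → A) : x = ![x 0, x 1, x 2] := by
  funext i; fin_cases i <;> rfl

theorem key (hN : IsGen N) (hN' : IsGen N') (φ : {x // NC N x} ≃ {x // NC N' x})
    (f : Finset ({x // NP N x} × {x // NP N' x})) (g : Finset ({x // NQ N x} × {x // NQ N' x}))
    (hf : BF.Inj f) (hg : BF.Inj g)
    (comp : ∀ p ∈ f, ∀ q ∈ g, rN hN' p.2 q.2 = φ (rN hN p.1 q.1)) :
    ∃ (G : N ≃ N') (π : {x // NP N x} ≃ {x // NP N' x}) (κ : {x // NQ N x} ≃ {x // NQ N' x}),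
      PresRel (L := L0) G ∧ (∀ x, G x.1 = (π x).1) ∧ (∀ x, G x.1 = (κ x).1) ∧
      (∀ p ∈ f, π p.1 = p.2) ∧ (∀ p ∈ g, κ p.1 = p.2) ∧
      (∀ x, G x.1 = (φ x).1) ∧ (∀ b x, rN hN' (π b) (κ x) = φ (rN hN b x)) := by
  have := infinite_C hN
  have := infinite_C hN'
  obtain ⟨π, κ, h1, h2, h3⟩ := BF.exists_equiv (rN_generic hN) (rN_generic hN') φ
    ⟨f, g, hf, hg, comp⟩
  let G : N ≃ N' := (dec hN).trans ((π.sumCongr (κ.sumCongr φ)).trans (dec hN').symm)
  have GP : ∀ x : {x // NP N x}, G x.1 = (π x).1 := by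
    intro x
    simp only [G, Equiv.trans_apply]
    rw [dec_P hN x.1 x.2]
    rfl
  have GQ : ∀ x : {x // NQ N x}, G x.1 = (κ x).1 := by
    intro x
    simp only [G, Equiv.trans_apply]
    rw [dec_Q hN x.1 x.2]
    rfl
  have GC : ∀ x : {x // NC N x}, G x.1 = (φ x).1 := by
    intro x
    simp only [G, Equiv.trans_apply]
    rw [dec_C hN x.1 x.2]
    rfl
  have cases3 : ∀ x : N, NP N x ∨ NQ N x ∨ NC N x := by
    intro x
    by_cases h : NP N x
    · exact Or.inl h
    · by_cases h' : NQ N x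
      · exact Or.inr (Or.inl h')
      · exact Or.inr (Or.inr ⟨h, h'⟩)
  have hPiff : ∀ x : N, NP N x ↔ NP N' (G x) := by
    intro x
    rcases cases3 x with h | h | h
    · rw [GP ⟨x, h⟩]; exact ⟨fun _ => (π _).2, fun _ => h⟩
    · rw [GQ ⟨x, h⟩]
      exact ⟨fun h' => absurd ⟨h', h⟩ (hN.disj x), fun h' => absurd ⟨h', (κ _).2⟩ (hN'.disj _)⟩
    · rw [GC ⟨x, h⟩]
      exact ⟨fun h' => absurd h' h.1, fun h' => absurd h' (φ _).2.1⟩
  have hQiff : ∀ x : N, NQ N x ↔ NQ N' (G x) := by
    intro x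
    rcases cases3 x with h | h | h
    · rw [GP ⟨x, h⟩]
      exact ⟨fun h' => absurd ⟨h, h'⟩ (hN.disj x), fun h' => absurd ⟨(π _).2, h'⟩ (hN'.disj _)⟩
    · rw [GQ ⟨x, h⟩]; exact ⟨fun _ => (κ _).2, fun _ => h⟩
    · rw [GC ⟨x, h⟩]
      exact ⟨fun h' => absurd h' h.2, fun h' => absurd h' (φ _).2.2⟩
  refine ⟨G, π, κ, ?_, GP, GQ, h1, h2, GC, h3⟩
  intro n R x
  cases R with
  | P =>
    have := hPiff (x 0)
    rw [fin1_eta x]
    have e : (G ∘ ![x 0]) = ![G (x 0)] := by funext i; fin_cases i; rfl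
    rw [e]
    exact this
  | Q =>
    have := hQiff (x 0)
    rw [fin1_eta x]
    have e : (G ∘ ![x 0]) = ![G (x 0)] := by funext i; fin_cases i; rfl
    rw [e]
    exact this
  | R =>
    rw [fin3_eta x]
    have e : (G ∘ ![x 0, x 1, x 2]) = ![G (x 0), G (x 1), G (x 2)] := by
      funext i; fin_cases i <;> rfl
    rw [e]
    change NR N (x 0) (x 1) (x 2) ↔ NR N' (G (x 0)) (G (x 1)) (G (x 2))
    constructor
    · intro h
      obtain ⟨m0, m1, m2⟩ := hN.R_mem _ _ _ h
      rw [rN_spec hN ⟨x 0, m0⟩ ⟨x 1, m1⟩] at h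
      rw [GP ⟨x 0, m0⟩, GQ ⟨x 1, m1⟩, GC ⟨x 2, m2⟩, rN_spec hN', h3]
      exact congrArg (fun z => (φ z).1) (Subtype.ext h)
    · intro h
      obtain ⟨m0, m1, m2⟩ := hN'.R_mem _ _ _ h
      have m0' := (hPiff _).2 m0
      have m1' := (hQiff _).2 m1
      have m2' : NC N (x 2) := ⟨fun h => m2.1 ((hPiff _).1 h), fun h => m2.2 ((hQiff _).1 h)⟩
      rw [GP ⟨x 0, m0'⟩, GQ ⟨x 1, m1'⟩, GC ⟨x 2, m2'⟩, rN_spec hN', h3] at h
      rw [rN_spec hN ⟨x 0, m0'⟩ ⟨x 1, m1'⟩]
      have := φ.injective (Subtype.ext h)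
      exact congrArg Subtype.val this

end key

/-! ## Renaming of constants -/

section expansions

variable {L : FirstOrder.Language.{0, 0}} {M : Type} [L.Structure M] {Q : Type}

/-- The expansion of `M` by constants. -/
@[reducible] def S1 (h : Q → M) : L[[Q]].Structure M :=
  letI := constantsOn.structure h
  Language.sumStructure L (constantsOn Q) M

/-- The expansion of `M` by constants, twice. -/
@[reducible] def S2 {n : ℕ} (h : Q → M) (v : Fin n → M) : L[[Q]][[Fin n]].Structure M :=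
  letI := S1 (L := L) h
  letI := constantsOn.structure v
  Language.sumStructure L[[Q]] (constantsOn (Fin n)) M

def sat1 (h : Q → M) (φ : L[[Q]].Sentence) : Prop :=
  @Sentence.Realize L[[Q]] M (S1 h) φ

def sat2 {n : ℕ} (h : Q → M) (v : Fin n → M) (φ : L[[Q]][[Fin n]].Sentence) : Prop :=
  @Sentence.Realize L[[Q]][[Fin n]] M (S2 h v) φ

/-- Renaming constants, one level. -/
def ren1 (f : Q ≃ Q) : L[[Q]] ≃ᴸ L[[Q]] where
  toLHom := L.lhomWithConstantsMap f
  invLHom := L.lhomWithConstantsMap f.symm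
  left_inv := by
    apply LHom.funext
    · funext n g
      rcases g with g | g
      · rfl
      · cases n with
        | zero => exact congrArg Sum.inr (f.symm_apply_apply g)
        | succ n => exact isEmptyElim g
    · funext n R
      rcases R with R | R
      · rfl
      · exact R.elim
  right_inv := by
    apply LHom.funext
    · funext n g
      rcases g with g | g
      · rfl
      · cases n with
        | zero => exact congrArg Sum.inr (f.apply_symm_apply g)
        | succ n => exact isEmptyElim g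
    · funext n R
      rcases R with R | R
      · rfl
      · exact R.elim

/-- Renaming constants, with variables as extra constants. -/
def ren2 (n : ℕ) (f : Q ≃ Q) : L[[Q]][[Fin n]] ≃ᴸ L[[Q]][[Fin n]] where
  toLHom := (L.lhomWithConstantsMap f).addConstants (Fin n)
  invLHom := (L.lhomWithConstantsMap f.symm).addConstants (Fin n)
  left_inv := by
    apply LHom.funext
    · funext m g
      rcases g with g | g
      · exact congrArg Sum.inl (congrFun (congrFun (congrArg LHom.onFunction (ren1 f).left_inv) m) g)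
      · rfl
    · funext m g
      rcases g with g | g
      · exact congrArg Sum.inl (congrFun (congrFun (congrArg LHom.onRelation (ren1 f).left_inv) m) g)
      · rfl
  right_inv := by
    apply LHom.funext
    · funext m g
      rcases g with g | g
      · exact congrArg Sum.inl (congrFun (congrFun (congrArg LHom.onFunction (ren1 f).right_inv) m) g)
      · rfl
    · funext m g
      rcases g with g | g
      · exact congrArg Sum.inl (congrFun (congrFun (congrArg LHom.onRelation (ren1 f).right_inv) m) g)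
      · rfl

lemma sat1_ren (f : Q ≃ Q) (h : Q → M) (φ : L[[Q]].Sentence) :
    sat1 h ((L.lhomWithConstantsMap f).onSentence φ) ↔ sat1 (h ∘ f) φ := by
  unfold sat1
  have key : @LHom.IsExpansionOn _ _ (L.lhomWithConstantsMap f) M (S1 (h ∘ f)) (S1 h) := by
    refine @LHom.IsExpansionOn.mk _ _ _ _ (S1 (h ∘ f)) (S1 h) ?_ ?_
    · intro n g x
      rcases g with g | g
      · rfl
      · cases n with
        | zero => rfl
        | succ n => exact isEmptyElim g
    · intro n R x
      rcases R with R | R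
      · rfl
      · exact R.elim
  exact @LHom.realize_onSentence _ _ M (S1 (h ∘ f)) (S1 h) _ key φ

lemma sat2_ren {n : ℕ} (f : Q ≃ Q) (h : Q → M) (v : Fin n → M) (φ : L[[Q]][[Fin n]].Sentence) :
    sat2 h v (((L.lhomWithConstantsMap f).addConstants (Fin n)).onSentence φ) ↔
      sat2 (h ∘ f) v φ := by
  unfold sat2
  have key : @LHom.IsExpansionOn _ _ ((L.lhomWithConstantsMap f).addConstants (Fin n)) M
      (S2 (h ∘ f) v) (S2 h v) := by
    refine @LHom.IsExpansionOn.mk _ _ _ _ (S2 (h ∘ f) v) (S2 h v) ?_ ?_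
    · intro m g x
      rcases g with g | g
      · rcases g with g | g
        · rfl
        · cases m with
          | zero => rfl
          | succ m => exact isEmptyElim g
      · rfl
    · intro m R x
      rcases R with R | R
      · rcases R with R | R
        · rfl
        · exact R.elim
      · exact R.elim
  exact @LHom.realize_onSentence _ _ M (S2 (h ∘ f) v) (S2 h v) _ key φ

end expansions

/-! ## Permutations of `Q` -/

section core

variable {M : Type} [L0.Structure M]

lemma sat1_support {Q : Type} (φ : L0[[Q]].Sentence) : ∃ (A : Set Q) (B : Set ℕ), A.Finite ∧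
    B.Finite ∧ ∀ (G : M ≃ M), PresRel (L := L0) G → (∀ n ∈ B, G (Nc M n) = Nc M n) →
      ∀ (h h' : Q → M), (∀ y ∈ A, h' y = G (h y)) → (sat1 h φ ↔ sat1 h' φ) := by
  obtain ⟨F, hF, hF'⟩ := formula_support.{0, 0, 0} φ
  refine ⟨{y | (⟨0, Sum.inr y⟩ : Σ n, L0[[Q]].Functions n) ∈ F},
    {n | (⟨0, Sum.inl (Fn.c n)⟩ : Σ n, L0[[Q]].Functions n) ∈ F}, ?_, ?_, ?_⟩
  · apply hF.preimage
    intro y _ y' _ h
    simp only [Sigma.mk.injEq, heq_eq_eq, true_and] at h
    exact Sum.inr_injective h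
  · apply hF.preimage
    intro y _ y' _ h
    simp only [Sigma.mk.injEq, heq_eq_eq, true_and] at h
    have h2 := Sum.inl_injective h
    cases h2
    rfl
  · intro G hG hB h h' hh
    have := @hF' M M (S1 h) (S1 h') G ?_ ?_ default default
    · unfold sat1 Sentence.Realize Formula.Realize
      rw [this]
      rw [Subsingleton.elim (G ∘ (default : Empty → M)) default,
        Subsingleton.elim (G ∘ (default : Fin 0 → M)) default]
    · rintro ⟨n, f⟩ hf x
      rcases f with f | f
      · cases f with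
        | c m =>
          have := hB m hf
          have e1 : Structure.funMap (L := L0) (Fn.c m) x = Nc M m :=
            congrArg _ (Subsingleton.elim _ _)
          have e2 : Structure.funMap (L := L0) (Fn.c m) (G ∘ x) = Nc M m :=
            congrArg _ (Subsingleton.elim _ _)
          change G (Structure.funMap (L := L0) (Fn.c m) x) = Structure.funMap (L := L0) (Fn.c m) (G ∘ x)
          rw [e1, e2, this]
      · cases n with
        | zero => exact (hh f hf).symm
        | succ n => exact isEmptyElim f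
    · intro n R x
      rcases R with R | R
      · exact hG n R x
      · exact R.elim

lemma sat2_support {Q : Type} {k : ℕ} (φ : L0[[Q]][[Fin k]].Sentence) :
    ∃ (A : Set Q) (B : Set ℕ), A.Finite ∧
    B.Finite ∧ ∀ (G : M ≃ M), PresRel (L := L0) G → (∀ n ∈ B, G (Nc M n) = Nc M n) →
      ∀ (h h' : Q → M) (v : Fin k → M), (∀ y ∈ A, h' y = G (h y)) →
        (sat2 h v φ ↔ sat2 h' (G ∘ v) φ) := by
  obtain ⟨F, hF, hF'⟩ := formula_support.{0, 0, 0} φ
  refine ⟨{y | (⟨0, Sum.inl (Sum.inr y)⟩ : Σ n, L0[[Q]][[Fin k]].Functions n) ∈ F},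
    {n | (⟨0, Sum.inl (Sum.inl (Fn.c n))⟩ : Σ n, L0[[Q]][[Fin k]].Functions n) ∈ F}, ?_, ?_, ?_⟩
  · apply hF.preimage
    intro y _ y' _ h
    simp only [Sigma.mk.injEq, heq_eq_eq, true_and] at h
    exact Sum.inr_injective (Sum.inl_injective h)
  · apply hF.preimage
    intro y _ y' _ h
    simp only [Sigma.mk.injEq, heq_eq_eq, true_and] at h
    have h2 := Sum.inl_injective (Sum.inl_injective h)
    cases h2
    rfl
  · intro G hG hB h h' v hh
    have := @hF' M M (S2 h v) (S2 h' (G ∘ v)) G ?_ ?_ default default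
    · unfold sat2 Sentence.Realize Formula.Realize
      rw [this]
      rw [Subsingleton.elim (G ∘ (default : Empty → M)) default,
        Subsingleton.elim (G ∘ (default : Fin 0 → M)) default]
    · rintro ⟨n, f⟩ hf x
      rcases f with f | f
      · rcases f with f | f
        · cases f with
          | c m =>
            have := hB m hf
            have e1 : Structure.funMap (L := L0) (Fn.c m) x = Nc M m :=
              congrArg _ (Subsingleton.elim _ _)
            have e2 : Structure.funMap (L := L0) (Fn.c m) (G ∘ x) = Nc M m :=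
              congrArg _ (Subsingleton.elim _ _)
            change G (Structure.funMap (L := L0) (Fn.c m) x) =
              Structure.funMap (L := L0) (Fn.c m) (G ∘ x)
            rw [e1, e2, this]
        · cases n with
          | zero => exact (hh f hf).symm
          | succ n => exact isEmptyElim f
      · cases n with
        | zero => rfl
        | succ n => exact isEmptyElim f
    · intro n R x
      rcases R with R | R
      · rcases R with R | R
        · exact hG n R x
        · exact R.elim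
      · exact R.elim

variable [Countable M] (hM : IsGen M)

include hM

/-- Every permutation of the `Q`-part is elementary. -/
lemma perm_elem (h : {x | NQ M x} ≃ {x | NQ M x}) (φ : L0[[{x | NQ M x}]].Sentence) :
    sat1 (Subtype.val ∘ h) φ ↔ sat1 (Subtype.val : {x | NQ M x} → M) φ := by
  classical
  obtain ⟨A, B, hA, hB, key1⟩ := sat1_support (M := M) φ
  obtain ⟨G, π, κ, h1, h2, h3, h4, h5, h6, h7⟩ := key hM hM (Equiv.refl _) ∅
    (hA.toFinset.image (fun y => (y, h y))) (by intro p hp; simp at hp) (by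
      intro p hp q hq
      rw [Finset.mem_image] at hp hq
      obtain ⟨p, hp, rfl⟩ := hp
      obtain ⟨q, hq, rfl⟩ := hq
      exact h.injective.eq_iff.symm) (by intro p hp; simp at hp)
  symm
  apply key1 G h1
  · intro n _
    exact h6 ⟨Nc M n, hM.c_mem n⟩
  · intro y hy
    have e1 := h3 y
    have e2 := h5 (y, h y) (Finset.mem_image_of_mem _ (hA.mem_toFinset.2 hy))
    rw [e1, e2]
    rfl

lemma move2 (b : {x // NP M x}) (h : {x | NQ M x} ≃ {x | NQ M x}) (a : Finset {x | NQ M x})
    (x0 : {x | NQ M x}) (hu : ∀ n, ¬ NR M b x0 (Nc M n))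
    (hua : ∀ y ∈ a, ¬ ∃ z, NR M b x0 z ∧ NR M b y z)
    (θ : L0[[{x | NQ M x}]][[Fin 1]].Sentence)
    (hθ : sat2 (Subtype.val ∘ h) (fun _ => b.1) θ) :
    ∃ (κ : {x | NQ M x} ≃ {x | NQ M x}) (m : ℕ), (∀ y ∈ a, κ y = y) ∧
      NR M b (κ x0) (Nc M m) ∧ sat2 (Subtype.val ∘ (h.trans κ)) (fun _ => b.1) θ := by
  classical
  obtain ⟨A, B, hA, hB, key1⟩ := sat2_support (M := M) θ
  set r := rN hM with hr
  -- choose m
  obtain ⟨m, hm⟩ : ∃ m, m ∉ B ∪ ⋃ y ∈ a, {n | Nc M n = r b y} := by
    have hfin : (B ∪ ⋃ y ∈ a, {n | Nc M n = r b y}).Finite := by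
      apply hB.union
      apply Set.Finite.biUnion a.finite_toSet
      intro y _
      apply Set.Subsingleton.finite
      intro n hn n' hn'
      by_contra hne
      exact hM.c_ne n n' hne (hn.trans hn'.symm)
    exact hfin.infinite_compl.nonempty
  rw [Set.mem_union, not_or] at hm
  obtain ⟨hmB, hma⟩ := hm
  have hma' : ∀ y ∈ a, Nc M m ≠ r b y := by
    intro y hy h
    apply hma
    rw [Set.mem_iUnion₂]
    exact ⟨y, hy, h⟩
  let cm : {x // NC M x} := ⟨Nc M m, hM.c_mem m⟩
  let u : {x // NC M x} := r b x0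
  have hu' : ∀ n, (u : M) ≠ Nc M n := by
    intro n hn
    apply hu n
    rw [rN_spec hM]
    exact hn.symm
  have hua' : ∀ y ∈ a, u ≠ r b y := by
    intro y hy h
    apply hua y hy
    refine ⟨u, ?_, ?_⟩
    · rw [rN_spec hM]
    · rw [rN_spec hM b y]
      exact congrArg Subtype.val h
  obtain ⟨G, π, κ, h1, h2, h3, h4, h5, h6, h7⟩ := key hM hM (Equiv.swap u cm) {(b, b)}
    (a.image (fun y => (y, y))) (by
      intro p hp q hq
      rw [Finset.mem_singleton] at hp hq
      rw [hp, hq]) (by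
      intro p hp q hq
      rw [Finset.mem_image] at hp hq
      obtain ⟨p, hp, rfl⟩ := hp
      obtain ⟨q, hq, rfl⟩ := hq
      exact Iff.rfl) (by
      intro p hp q hq
      rw [Finset.mem_singleton] at hp
      rw [Finset.mem_image] at hq
      obtain ⟨q, hq, rfl⟩ := hq
      rw [hp]
      symm
      apply Equiv.swap_apply_of_ne_of_ne
      · exact (hua' q hq).symm
      · intro h
        exact hma' q hq (congrArg Subtype.val h).symm)
  have hπb : π b = b := h4 (b, b) (Finset.mem_singleton_self _)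
  refine ⟨κ, m, ?_, ?_, ?_⟩
  · intro y hy
    exact h5 (y, y) (Finset.mem_image_of_mem _ hy)
  · have e := h7 b x0
    rw [hπb] at e
    rw [rN_spec hM b (κ x0)]
    rw [e]
    change Nc M m = ((Equiv.swap u cm) u).1
    rw [Equiv.swap_apply_left]
  · have e := (key1 G h1 ?_ (Subtype.val ∘ h) (Subtype.val ∘ (h.trans κ)) (fun _ => b.1) ?_).1 hθ
    · have e2 : (G ∘ fun _ : Fin 1 => b.1) = fun _ => b.1 := by
        funext i
        change G b.1 = b.1
        rw [h2 b, hπb]
      rw [e2] at e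
      exact e
    · intro n hn
      have e3 := h6 ⟨Nc M n, hM.c_mem n⟩
      rw [Equiv.swap_apply_of_ne_of_ne] at e3
      · exact e3
      · intro h
        exact hu' n (congrArg Subtype.val h).symm
      · intro h
        have : n = m := by
          by_contra hne
          exact hM.c_ne n m hne (congrArg Subtype.val h)
        exact hmB (this ▸ hn)
    · intro y _
      exact (h3 (h y)).symm

end core

section types

variable {M : Type} [L0.Structure M] [Nonempty M] [Countable M] (hM : IsGen M)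

/-- The type of the tuple `v` in `M` with the constants for `Q` permuted by `h`. -/
noncomputable def tp (h : {x | NQ M x} ≃ {x | NQ M x}) (v : Fin 1 → M) :
    TypesOver L0 M {x | NQ M x} 1 :=
  @Theory.typeOf L0[[{x | NQ M x}]] (L0[[{x | NQ M x}]].completeTheory M) (Fin 1) M
    (S1 (Subtype.val ∘ h)) _ (by
      refine @Theory.Model.mk _ _ (S1 (Subtype.val ∘ h)) _ ?_
      intro φ hφ
      exact (perm_elem hM h φ).2 hφ) v

lemma mem_tp (h : {x | NQ M x} ≃ {x | NQ M x}) (v : Fin 1 → M)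
    (φ : L0[[{x | NQ M x}]][[Fin 1]].Sentence) : φ ∈ tp hM h v ↔ sat2 (Subtype.val ∘ h) v φ :=
  Iff.rfl

lemma isImage_tp (f h : {x | NQ M x} ≃ {x | NQ M x}) (v : Fin 1 → M) :
    IsImage L0 f (tp hM h v) (tp hM (f.symm.trans h) v) := by
  intro φ
  rw [mem_tp, mem_tp, sat2_ren]
  have : (Subtype.val ∘ (f.symm.trans h)) ∘ f = (Subtype.val ∘ h : {x | NQ M x} → M) := by
    funext y
    simp
  rw [this]

lemma isImage_unique {f : {x | NQ M x} ≃ {x | NQ M x}} {p q q' : TypesOver L0 M {x | NQ M x} 1}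
    (h : IsImage L0 f p q) (h' : IsImage L0 f p q') : q = q' := by
  apply SetLike.ext
  intro φ
  have h1 := h ((ren2 1 f).onSentence.symm φ)
  have h2 := h' ((ren2 1 f).onSentence.symm φ)
  have e : ((L0.lhomWithConstantsMap f).addConstants (Fin 1)).onSentence
      ((ren2 1 f).onSentence.symm φ) = φ := (ren2 1 f).onSentence.apply_symm_apply φ
  rw [e] at h1 h2
  rw [h1, h2]

include hM in
lemma isElementaryPerm (f : {x | NQ M x} ≃ {x | NQ M x}) : IsElementaryPerm L0 f := by
  intro φ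
  change sat1 Subtype.val _ ↔ sat1 Subtype.val φ
  rw [sat1_ren]
  exact perm_elem hM f φ

lemma mem_cls_iff (a : Finset {x | NQ M x}) (v : Fin 1 → M) (q : TypesOver L0 M {x | NQ M x} 1) :
    q ∈ cls L0 a (tp hM (Equiv.refl _) v) ↔
      ∃ h : {x | NQ M x} ≃ {x | NQ M x}, (∀ y ∈ a, h y = y) ∧ q = tp hM h v := by
  constructor
  · rintro ⟨f, _, hf, hfq⟩
    refine ⟨f.symm, ?_, ?_⟩
    · intro y hy
      rw [Equiv.symm_apply_eq, hf y hy]
    · exact isImage_unique hfq (isImage_tp hM f (Equiv.refl _) v)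
  · rintro ⟨h, hh, rfl⟩
    refine ⟨h.symm, isElementaryPerm hM _, ?_, ?_⟩
    · intro y hy
      rw [Equiv.symm_apply_eq, hh y hy]
    · exact isImage_tp hM h.symm (Equiv.refl _) v

/-- The sentence `R(v, x, c_n)`. -/
def sρ {Q : Type} (x : Q) (n : ℕ) : L0[[Q]][[Fin 1]].Sentence :=
  Relations.formula (L := L0[[Q]][[Fin 1]]) (Sum.inl (Sum.inl Rl.R))
    ![Term.func (L := L0[[Q]][[Fin 1]]) (l := 0) (Sum.inr (0 : Fin 1)) ![],
      Term.func (L := L0[[Q]][[Fin 1]]) (l := 0) (Sum.inl (Sum.inr x)) ![],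
      Term.func (L := L0[[Q]][[Fin 1]]) (l := 0) (Sum.inl (Sum.inl (Fn.c n))) ![] ]

/-- The sentence `∃ z, R(v, x, z) ∧ R(v, y, z)`. -/
noncomputable def sσ {Q : Type} (x y : Q) : L0[[Q]][[Fin 1]].Sentence :=
  Formula.iExs (α := Empty) (Fin 1)
    (Relations.formula (L := L0[[Q]][[Fin 1]]) (Sum.inl (Sum.inl Rl.R))
    ![Term.func (L := L0[[Q]][[Fin 1]]) (l := 0) (Sum.inr (0 : Fin 1)) ![],
      Term.func (L := L0[[Q]][[Fin 1]]) (l := 0) (Sum.inl (Sum.inr x)) ![],
      Term.var (Sum.inr 0)] ⊓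
    Relations.formula (L := L0[[Q]][[Fin 1]]) (Sum.inl (Sum.inl Rl.R))
    ![Term.func (L := L0[[Q]][[Fin 1]]) (l := 0) (Sum.inr (0 : Fin 1)) ![],
      Term.func (L := L0[[Q]][[Fin 1]]) (l := 0) (Sum.inl (Sum.inr y)) ![],
      Term.var (Sum.inr 0)])

omit [Nonempty M] [Countable M] in
lemma sat2_sρ {Q : Type} (h : Q → M) (v : Fin 1 → M) (x : Q) (n : ℕ) :
    sat2 h v (sρ x n) ↔ NR M (v 0) (h x) (Nc M n) := by
  unfold sat2 sρ Sentence.Realize
  rw [@Formula.realize_rel L0[[Q]][[Fin 1]] M (S2 h v)]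
  change Structure.RelMap (L := L0) Rl.R _ ↔ Structure.RelMap (L := L0) Rl.R _
  apply iff_of_eq
  congr 1
  funext i
  fin_cases i
  · rfl
  · rfl
  · exact congrArg (Structure.funMap (L := L0) (Fn.c n)) (Subsingleton.elim _ _)

omit [Nonempty M] [Countable M] in
lemma sat2_sσ {Q : Type} (h : Q → M) (v : Fin 1 → M) (x y : Q) :
    sat2 h v (sσ x y) ↔ ∃ z, NR M (v 0) (h x) z ∧ NR M (v 0) (h y) z := by
  unfold sat2 sσ Sentence.Realize
  rw [@Formula.realize_iExs L0[[Q]][[Fin 1]] M (S2 h v)]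
  simp only [@Formula.realize_inf _ _ (S2 h v), @Formula.realize_rel L0[[Q]][[Fin 1]] M (S2 h v)]
  have e1 : ∀ (x : Q) (i : Fin 1 → M), (@Structure.RelMap L0[[Q]][[Fin 1]] M (S2 h v) 3
      (Sum.inl (Sum.inl Rl.R)) fun j => @Term.realize L0[[Q]][[Fin 1]] M (S2 h v) _
      (Sum.elim (default : Empty → M) i)
      (![Term.func (L := L0[[Q]][[Fin 1]]) (l := 0) (Sum.inr (0 : Fin 1)) ![],
      Term.func (L := L0[[Q]][[Fin 1]]) (l := 0) (Sum.inl (Sum.inr x)) ![],
      Term.var (Sum.inr 0)] j)) ↔ NR M (v 0) (h x) (i 0) := by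
    intro x i
    change Structure.RelMap (L := L0) Rl.R _ ↔ Structure.RelMap (L := L0) Rl.R _
    apply iff_of_eq
    congr 1
    funext j
    fin_cases j <;> rfl
  constructor
  · rintro ⟨i, hi⟩
    exact ⟨i 0, (e1 x i).1 hi.1, (e1 y i).1 hi.2⟩
  · rintro ⟨z, hz1, hz2⟩
    exact ⟨fun _ => z, (e1 x _).2 hz1, (e1 y _).2 hz2⟩

/-- The closed sets used to cover the orbit. -/
def FF (a : Finset {x | NQ M x}) (x : {x | NQ M x}) : Set (TypesOver L0 M {x | NQ M x} 1) :=
  {q | (∀ n, sρ x n ∉ q) ∧ ∀ y ∈ a, sσ x y ∉ q}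

omit [Countable M] in
lemma isClosed_FF (a : Finset {x | NQ M x}) (x : {x | NQ M x}) : IsClosed (FF a x) := by
  have : FF a x = (⋂ n, (Theory.typesWith _ (sρ x n))ᶜ) ∩ ⋂ y ∈ a, (Theory.typesWith _ (sσ x y))ᶜ := by
    ext q
    simp only [FF, Set.mem_inter_iff, Set.mem_iInter, Set.mem_compl_iff]
    rfl
  rw [this]
  apply IsClosed.inter
  · exact isClosed_iInter fun n => (_root_.CompleteType.isOpen_typesWith _).isClosed_compl
  · exact isClosed_biInter fun n _ => (_root_.CompleteType.isOpen_typesWith _).isClosed_compl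

end types

section final

variable {M : Type} [L0.Structure M] [Nonempty M] [Countable M] (hM : IsGen M)

open Topology

theorem not_tauStable (hU : {z : M | NC M z ∧ ∀ n, z ≠ Nc M n}.Infinite) (b : {x // NP M x}) :
    ¬ TauStable L0 (tp hM (Equiv.refl _) (fun _ => b.1)) := by
  classical
  rintro ⟨a, ha⟩
  set p := tp hM (Equiv.refl _) (fun _ => b.1) with hp
  set O := cls L0 a p with hO
  have hpO : p ∈ O := (mem_cls_iff hM a _ _).2 ⟨Equiv.refl _, fun _ _ => rfl, rfl⟩
  -- the cover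
  have hcov : ∀ q ∈ O, ∃ x, q ∈ FF a x := by
    intro q hq
    obtain ⟨h, hh, rfl⟩ := (mem_cls_iff hM a _ _).1 hq
    -- an unnamed value
    obtain ⟨u, hu, hua⟩ : ∃ u : {z : M | NC M z ∧ ∀ n, z ≠ Nc M n}, True ∧
        ∀ y ∈ a, (u : M) ≠ (rN hM b y : M) := by
      have : (((a.image (fun y => (rN hM b y : M))) : Finset M) : Set M).Finite :=
        Finset.finite_toSet _
      obtain ⟨u, hu, hu'⟩ := (hU.sdiff this).nonempty
      refine ⟨⟨u, hu⟩, trivial, ?_⟩
      intro y hy h
      apply hu'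
      rw [Finset.mem_coe, Finset.mem_image]
      exact ⟨y, hy, h.symm⟩
    obtain ⟨x0, hx0⟩ := (rN_generic hM).ext1 {b} (fun _ => ⟨u.1, u.2.1⟩)
    have hx0 := hx0 b (Finset.mem_singleton_self b)
    refine ⟨h.symm x0, ?_, ?_⟩
    · intro n hn
      rw [mem_tp, sat2_sρ] at hn
      have e : (Subtype.val ∘ h : {x | NQ M x} → M) (h.symm x0) = x0.1 := by simp
      rw [e, rN_spec hM b x0, hx0] at hn
      exact u.2.2 n hn.symm
    · intro y hy hn
      rw [mem_tp, sat2_sσ] at hn
      obtain ⟨z, hz1, hz2⟩ := hn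
      have e : (Subtype.val ∘ h : {x | NQ M x} → M) (h.symm x0) = x0.1 := by simp
      have e2 : (Subtype.val ∘ h : {x | NQ M x} → M) y = y.1 := by
        simp [hh y hy]
      rw [e, rN_spec hM b x0, hx0] at hz1
      rw [e2, rN_spec hM b y] at hz2
      exact hua y hy (hz1.symm.trans hz2)
  -- nowhere density
  have hnd : ∀ x, IsNowhereDense ((Subtype.val : closure O → _) ⁻¹' (FF a x)) := by
    intro x
    have hcl : IsClosed ((Subtype.val : closure O → _) ⁻¹' (FF a x)) :=
      (isClosed_FF a x).preimage continuous_subtype_val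
    rw [hcl.isNowhereDense_iff]
    by_contra hne
    obtain ⟨q, hq⟩ := Set.nonempty_iff_ne_empty.2 hne
    rw [mem_interior] at hq
    obtain ⟨t, ht, hto, hqt⟩ := hq
    rw [isOpen_induced_iff] at hto
    obtain ⟨t', ht', rfl⟩ := hto
    obtain ⟨_, ⟨θ, rfl⟩, hqθ, hθt⟩ :=
      (_root_.CompleteType.isTopologicalBasis_range_typesWith).exists_subset_of_mem_open hqt ht'
    have hθo : IsOpen (Theory.typesWith (L0[[{x | NQ M x}]].completeTheory M) θ) :=
      _root_.CompleteType.isOpen_typesWith _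
    obtain ⟨q0, hq0θ, hq0O⟩ := mem_closure_iff.1 q.2 _ hθo hqθ
    have hq0F : q0 ∈ FF a x := ht (a := ⟨q0, subset_closure hq0O⟩) (hθt hq0θ)
    obtain ⟨h, hh, rfl⟩ := (mem_cls_iff hM a _ _).1 hq0O
    have c1 : ∀ n, ¬ NR M b (h x) (Nc M n) := by
      intro n hn
      apply hq0F.1 n
      rw [mem_tp, sat2_sρ]
      exact hn
    have c2 : ∀ y ∈ a, ¬ ∃ z, NR M b (h x) z ∧ NR M b y z := by
      intro y hy hn
      apply hq0F.2 y hy
      rw [mem_tp, sat2_sσ]
      have e2 : (Subtype.val ∘ h : {x | NQ M x} → M) y = y.1 := by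
        simp [hh y hy]
      rw [e2]
      exact hn
    obtain ⟨κ, m, k1, k2, k3⟩ := move2 hM b h a (h x) c1 c2 θ hq0θ
    have hq1O : tp hM (h.trans κ) (fun _ => b.1) ∈ O := by
      refine (mem_cls_iff hM a _ _).2 ⟨h.trans κ, ?_, rfl⟩
      intro y hy
      rw [Equiv.trans_apply, hh y hy, k1 y hy]
    have hq1F : tp hM (h.trans κ) (fun _ => b.1) ∈ FF a x :=
      ht (a := ⟨_, subset_closure hq1O⟩) (hθt k3)
    apply hq1F.1 m
    rw [mem_tp, sat2_sρ]
    exact k2
  -- conclusion
  have hmeagre : IsMeagre {q : closure O | q.1 ∈ O} := by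
    have : {q : closure O | q.1 ∈ O} ⊆ ⋃ x, (Subtype.val : closure O → _) ⁻¹' (FF a x) := by
      intro q hq
      obtain ⟨x, hx⟩ := hcov q.1 hq
      exact Set.mem_iUnion.2 ⟨x, hx⟩
    exact (isMeagre_iUnion fun x => (hnd x).isMeagre).mono this
  have : CompactSpace (closure O) := isCompact_iff_compactSpace.1 isClosed_closure.isCompact
  have hB : BaireSpace (closure O) := inferInstance
  have hempty : (∅ : Set (closure O)) ∈ residual (closure O) := by
    have := Filter.inter_mem ha hmeagre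
    rwa [Set.inter_compl_self] at this
  have hd := dense_of_mem_residual hempty
  obtain ⟨q, hq⟩ := hd.nonempty_iff.2 ⟨⟨p, subset_closure hpO⟩⟩
  exact hq

/-- The formula `Q(x)`, as a countable disjunction of partial types. -/
def Phi : ℕ → Set (L0.Formula (Fin 1)) := fun _ => {fQ (Term.var 0)}

omit [Nonempty M] [Countable M] in
lemma sol_Phi : sol L0 Phi M = {x | NQ M x} := by
  ext m
  simp only [sol, Phi, Set.mem_singleton_iff, forall_eq, exists_const, Set.mem_setOf_eq,
    realize_fQ]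
  rfl

theorem isGood_tp (v : Fin 1 → M) : IsGood L0 Phi (tp hM (Equiv.refl _) v) := by
  refine ⟨M, inferInstance, inferInstance, inferInstance, Subtype.val, ?_⟩
  refine ⟨?_, ?_, ?_⟩
  · exact ⟨fun φ hφ => hφ⟩
  · rw [sol_Phi]
    exact Subtype.range_val.symm
  · exact ⟨v, rfl⟩

end final

/-! ## The model -/

section star

/-- The `i`-th entry of the list with code `m`. -/
def tt (m i : ℕ) : ℕ := (Denumerable.ofNat (List ℕ) m).getD i 0

lemma exists_tt (N : ℕ) (e : ℕ → ℕ) : ∃ m, ∀ i < N, tt m i = e i := by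
  refine ⟨Encodable.encode ((List.range N).map e), ?_⟩
  intro i hi
  unfold tt
  rw [Denumerable.ofNat_encode]
  rw [List.getD_eq_getElem?_getD, List.getElem?_map, List.getElem?_range hi]
  rfl

/-- A generic function. -/
def rS (b x : ℕ) : ℕ := if b < x then tt x.unpair.1 b else tt b.unpair.1 x

lemma rS_generic : BF.IsGeneric rS where
  ext1 := by
    intro s e
    obtain ⟨N, hN⟩ : ∃ N, ∀ b ∈ s, b < N := ⟨s.sup id + 1, fun b hb =>
      Nat.lt_succ_of_le (Finset.le_sup (f := id) hb)⟩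
    obtain ⟨m, hm⟩ := exists_tt N e
    refine ⟨Nat.pair m N, ?_⟩
    intro b hb
    have h1 : b < Nat.pair m N := lt_of_lt_of_le (hN b hb) (Nat.right_le_pair m N)
    rw [rS, if_pos h1, Nat.unpair_pair]
    exact hm b (hN b hb)
  ext2 := by
    intro s e
    obtain ⟨N, hN⟩ : ∃ N, ∀ b ∈ s, b < N := ⟨s.sup id + 1, fun b hb =>
      Nat.lt_succ_of_le (Finset.le_sup (f := id) hb)⟩
    obtain ⟨m, hm⟩ := exists_tt N e
    refine ⟨Nat.pair m N, ?_⟩
    intro b hb
    have h1 : b < Nat.pair m N := lt_of_lt_of_le (hN b hb) (Nat.right_le_pair m N)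
    rw [rS, if_neg (not_lt.2 h1.le), Nat.unpair_pair]
    exact hm b (hN b hb)

/-- The structure. -/
abbrev MS : Type := ℕ ⊕ ℕ ⊕ ℕ

instance : L0.Structure MS := genStr rS (fun n => 2 * n)

lemma NP_MS (x : MS) : NP MS x ↔ ∃ b, x = Sum.inl b := Iff.rfl

lemma NQ_MS (x : MS) : NQ MS x ↔ ∃ b, x = Sum.inr (Sum.inl b) := Iff.rfl

lemma NC_MS (x : MS) : NC MS x ↔ ∃ b, x = Sum.inr (Sum.inr b) := by
  rw [NC, NP_MS, NQ_MS]
  rcases x with x | x | x <;> simp

lemma NR_MS (x y z : MS) : NR MS x y z ↔ ∃ b y', x = Sum.inl b ∧ y = Sum.inr (Sum.inl y') ∧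
    z = Sum.inr (Sum.inr (rS b y')) := Iff.rfl

lemma Nc_MS (n : ℕ) : Nc MS n = Sum.inr (Sum.inr (2 * n)) := rfl

lemma isGen_MS : IsGen MS where
  disj := by
    rintro x ⟨h1, h2⟩
    rw [NP_MS] at h1
    rw [NQ_MS] at h2
    obtain ⟨b, rfl⟩ := h1
    obtain ⟨b', hb'⟩ := h2
    simp at hb'
  c_mem n := by
    rw [NC_MS, Nc_MS]
    exact ⟨_, rfl⟩
  c_ne n m h := by
    rw [Nc_MS, Nc_MS]
    intro h'
    simp only [Sum.inr.injEq, mul_eq_mul_left_iff, OfNat.ofNat_ne_zero, or_false] at h'
    exact h h'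
  R_mem x y z h := by
    rw [NR_MS] at h
    obtain ⟨b, y', rfl, rfl, rfl⟩ := h
    rw [NP_MS, NQ_MS, NC_MS]
    exact ⟨⟨_, rfl⟩, ⟨_, rfl⟩, ⟨_, rfl⟩⟩
  R_ex x y hx hy := by
    rw [NP_MS] at hx
    rw [NQ_MS] at hy
    obtain ⟨b, rfl⟩ := hx
    obtain ⟨y', rfl⟩ := hy
    exact ⟨_, b, y', rfl, rfl, rfl⟩
  R_un x y z z' h h' := by
    rw [NR_MS] at h h'
    obtain ⟨b, y', rfl, rfl, rfl⟩ := h
    obtain ⟨b2, y2, h1, h2, rfl⟩ := h'
    simp only [Sum.inl.injEq, Sum.inr.injEq] at h1 h2
    rw [h1, h2]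
  ext1 k b e hb he hne := by
    choose b' hb' using fun i => (NP_MS _).1 (hb i)
    choose e' he' using fun i => (NC_MS _).1 (he i)
    have hinj : Function.Injective b' := by
      intro i j hij
      by_contra h
      exact hne i j h (by rw [hb', hb', hij])
    obtain ⟨x, hx⟩ := rS_generic.ext1 (Finset.univ.image b')
      (Function.extend b' e' 0)
    refine ⟨Sum.inr (Sum.inl x), (NQ_MS _).2 ⟨x, rfl⟩, ?_⟩
    intro i
    rw [NR_MS]
    refine ⟨b' i, x, hb' i, rfl, ?_⟩
    rw [hx (b' i) (Finset.mem_image_of_mem _ (Finset.mem_univ _)), hinj.extend_apply, he']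
  ext2 k b e hb he hne := by
    choose b' hb' using fun i => (NQ_MS _).1 (hb i)
    choose e' he' using fun i => (NC_MS _).1 (he i)
    have hinj : Function.Injective b' := by
      intro i j hij
      by_contra h
      exact hne i j h (by rw [hb', hb', hij])
    obtain ⟨x, hx⟩ := rS_generic.ext2 (Finset.univ.image b')
      (Function.extend b' e' 0)
    refine ⟨Sum.inl x, (NP_MS _).2 ⟨x, rfl⟩, ?_⟩
    intro i
    rw [NR_MS]
    refine ⟨x, b' i, rfl, hb' i, ?_⟩
    rw [hx (b' i) (Finset.mem_image_of_mem _ (Finset.mem_univ _)), hinj.extend_apply, he']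

lemma unnamed_MS : {z : MS | NC MS z ∧ ∀ n, z ≠ Nc MS n}.Infinite := by
  apply Set.infinite_of_injective_forall_mem (f := fun n : ℕ => (Sum.inr (Sum.inr (2 * n + 1)) : MS))
  · intro n m h
    simp only [Sum.inr.injEq] at h
    omega
  · intro n
    refine ⟨(NC_MS _).2 ⟨_, rfl⟩, ?_⟩
    intro m h
    rw [Nc_MS] at h
    simp only [Sum.inr.injEq] at h
    omega

end star

section count

/-- The set of unnamed elements. -/
def UU (K : Type) [L0.Structure K] : Type := {z : {x // NC K x} // ∀ n, z.1 ≠ Nc K n}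

variable {K K' : Type} [L0.Structure K] [L0.Structure K'] [Countable K] [Countable K']

/-- `C` is the disjoint union of the constants and the unnamed elements. -/
noncomputable def decC (hK : IsGen K) : ℕ ⊕ UU K ≃ {x // NC K x} :=
  Equiv.ofBijective (Sum.elim (fun n => ⟨Nc K n, hK.c_mem n⟩) (fun u => u.1)) (by
    constructor
    · rintro (n | u) (m | u') h
      · simp only [Sum.elim_inl, Subtype.mk.injEq] at h
        congr 1
        by_contra hne
        exact hK.c_ne n m hne h
      · simp only [Sum.elim_inl, Sum.elim_inr] at h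
        exact absurd (congrArg Subtype.val h).symm (u'.2 n)
      · simp only [Sum.elim_inl, Sum.elim_inr] at h
        exact absurd (congrArg Subtype.val h) (u.2 m)
      · simp only [Sum.elim_inr] at h
        rw [Subtype.ext h]
    · intro z
      by_cases hz : ∃ n, z.1 = Nc K n
      · obtain ⟨n, hn⟩ := hz
        exact ⟨Sum.inl n, Subtype.ext hn.symm⟩
      · push Not at hz
        exact ⟨Sum.inr ⟨z, hz⟩, rfl⟩)

lemma iso_of_UU (hK : IsGen K) (hK' : IsGen K') (e : UU K ≃ UU K') : Nonempty (K ≃[L0] K') := by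
  let φ : {x // NC K x} ≃ {x // NC K' x} :=
    (decC hK).symm.trans (((Equiv.refl ℕ).sumCongr e).trans (decC hK'))
  obtain ⟨G, π, κ, h1, h2, h3, h4, h5, h6, h7⟩ := key hK hK' φ ∅ ∅
    (by intro p hp; simp at hp) (by intro p hp; simp at hp) (by intro p hp; simp at hp)
  refine ⟨⟨G, ?_, ?_⟩⟩
  · intro n f x
    cases f with
    | c m =>
      have e1 : Structure.funMap (L := L0) (Fn.c m) x = Nc K m :=
        congrArg _ (Subsingleton.elim _ _)
      have e2 : Structure.funMap (L := L0) (Fn.c m) (G ∘ x) = Nc K' m :=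
        congrArg _ (Subsingleton.elim _ _)
      change G (Structure.funMap (L := L0) (Fn.c m) x) =
        Structure.funMap (L := L0) (Fn.c m) (G ∘ x)
      rw [e1, e2]
      have e3 := h6 ⟨Nc K m, hK.c_mem m⟩
      rw [e3]
      have e4 : (decC hK).symm ⟨Nc K m, hK.c_mem m⟩ = Sum.inl m := by
        rw [Equiv.symm_apply_eq]; rfl
      simp only [φ, Equiv.trans_apply]
      rw [e4]
      rfl
  · intro n R x
    exact (h1 n R x).symm

theorem num_le : numCountableModels (L0.completeTheory MS) ≤ ℵ₀ := by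
  have hgen : ∀ K : Theory.ModelType.{0, 0, 0} (L0.completeTheory MS), IsGen K := by
    intro K
    apply isGen_iff_of_equiv _ isGen_MS
    intro φ
    constructor
    · intro h
      exact K.is_model.realize_of_mem φ h
    · intro h
      by_contra h'
      have : K ⊨ φ.not := K.is_model.realize_of_mem _ (by
        change MS ⊨ φ.not
        exact h')
      exact this h
  unfold numCountableModels
  rw [Cardinal.mk_le_aleph0_iff]
  let F : {K : Theory.ModelType.{0, 0, 0} (L0.completeTheory MS) // Countable K} → ℕ∞ :=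
    fun K => Cardinal.toENat #(UU K.1)
  have hF : ∀ K K', F K = F K' → (isoSetoid (L0.completeTheory MS)) K K' := by
    intro K K' h
    have : Countable K.1 := K.2
    have : Countable K'.1 := K'.2
    have c1 : Countable (UU K.1) := by unfold UU; infer_instance
    have c2 : Countable (UU K'.1) := by unfold UU; infer_instance
    have h' : #(UU K.1) = #(UU K'.1) :=
      Cardinal.toENat_injOn (Cardinal.mk_le_aleph0_iff.2 c1) (Cardinal.mk_le_aleph0_iff.2 c2) h
    obtain ⟨e⟩ := Cardinal.eq.1 h'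
    exact iso_of_UU (hgen K.1) (hgen K'.1) e
  have : Function.Injective (fun q : Quotient (isoSetoid (L0.completeTheory MS)) => F q.out) := by
    intro q q' h
    rw [← Quotient.out_eq q, ← Quotient.out_eq q']
    exact Quotient.sound (hF _ _ h)
  exact this.countable

end count

theorem result : ∃ (L : FirstOrder.Language.{0, 0}) (_ : L.card ≤ ℵ₀) (M : Type)
    (_ : L.Structure M) (_ : Nonempty M) (_ : Countable M) (Φ : ℕ → Set (L.Formula (Fin 1))),
    numCountableModels (L.completeTheory M) ≤ ℵ₀ ∧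
      ∃ p : TypesOver L M (sol L Φ M) 1, IsGood L Φ p ∧ ¬ TauStable L p := by
  refine ⟨L0, ?_, MS, inferInstance, inferInstance, inferInstance, Phi, num_le, ?_⟩
  · have c1 : Countable (Σ n, L0.Functions n) := by
      have : Function.Surjective (fun n : ℕ => (⟨0, Fn.c n⟩ : Σ n, L0.Functions n)) := by
        rintro ⟨n, f⟩
        cases f with
        | c m => exact ⟨m, rfl⟩
      exact this.countable
    have c2 : Countable (Σ n, L0.Relations n) := by
      have : Function.Surjective (fun n : Fin 3 => (match n with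
        | 0 => ⟨1, Rl.P⟩ | 1 => ⟨1, Rl.Q⟩ | 2 => ⟨3, Rl.R⟩ : Σ n, L0.Relations n)) := by
        rintro ⟨n, f⟩
        cases f with
        | P => exact ⟨0, rfl⟩
        | Q => exact ⟨1, rfl⟩
        | R => exact ⟨2, rfl⟩
      exact this.countable
    have c3 : Countable L0.Symbols := by
      unfold Language.Symbols
      infer_instance
    exact Cardinal.mk_le_aleph0_iff.2 c3
  · have hs : sol L0 Phi MS = {x | NQ MS x} := sol_Phi
    have : ∀ S : Set MS, S = {x | NQ MS x} →
        ∃ p : TypesOver L0 MS S 1, IsGood L0 Phi p ∧ ¬ TauStable L0 p := by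
      rintro S rfl
      exact ⟨tp isGen_MS (Equiv.refl _) (fun _ => Sum.inl 0), isGood_tp isGen_MS _,
        not_tauStable isGen_MS unnamed_MS ⟨Sum.inl 0, (NP_MS _).2 ⟨0, rfl⟩⟩⟩
    exact this _ hs

end Pool.Agent.Results.MP_972fd8_lc.Negative
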